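import Pool.Agent.W5h7.Dom.Pure

set_option autoImplicit false
set_option linter.unusedSectionVars false

/-!
# The values on the pairs of neighbours
-/

namespace Pool.Agent.W5h7.Dom

open Finset Pool.Agent.R545.IN

variable {V : Type} [Fintype V] [DecidableEq V]

variable {R : V → V → Prop} [∀ y, DecidablePred (R y)] {d : ZMod 3 → V}
  {w : V → ZMod 3 → V} {A : ZMod 3 → Finset V} {T : Finset V}

theorem exists_g (h : Conf R d w A T) : ∃ g : V → V → F2,
    (∀ y z, R y z → g y z = g z y) ∧ (∀ y z, R y z → g y z ≠ 0) ∧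
    (∀ y, ∑ z ∈ univ.filter (R y), g y z = 0) := by
  classical
  obtain ⟨x, hx0, hx1, hxE, hxN⟩ := exists_x h
  have z1 : ∀ i : ZMod 3, i ≠ i + 1 := by decide
  have z2 : ∀ i : ZMod 3, i ≠ i + 2 := by decide
  have z3 : ∀ i : ZMod 3, i + 1 ≠ i + 2 := by decide
  have z4 : ∀ i : ZMod 3, i + 2 + 1 = i := by decide
  have z5 : ∀ i : ZMod 3, i + 1 + 2 = i := by decide
  -- the index of a vertex
  have hk : ∃ k : V → ZMod 3, (∀ i, k (d i) = i) ∧ ∀ i, ∀ u ∈ A i, k u = i := by
    refine ⟨fun u => if hu : ∃ i, u = d i then hu.choose else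
      if hu' : ∃ i, u ∈ A i then hu'.choose else 0, fun i => ?_, fun i u hu => ?_⟩
    · have h1 : ∃ j, d i = d j := ⟨i, rfl⟩
      simp only [h1, dif_pos]
      exact (h.dinj h1.choose_spec).symm
    · have h1 : ¬ ∃ j, u = d j := by
        rintro ⟨j, rfl⟩
        exact h.dA j i hu
      have h2 : ∃ j, u ∈ A j := ⟨i, hu⟩
      simp only [h1, h2, dif_pos, dif_neg, not_false_eq_true]
      by_contra hne
      exact disjoint_left.1 (h.AA _ _ hne) h2.choose_spec hu
  obtain ⟨k, kd, kA⟩ := hk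
  set S : ZMod 3 → F2 := fun i => ∑ u ∈ A i, x u with hS
  set τ : ZMod 3 → F2 := fun i => S i + S (i + 2) with hτ
  set hh : V → F2 := fun u => x u + x (w u (k u + 2)) with hhh
  -- the previous vertex
  have prevA : ∀ i, ∀ u ∈ A i, w u (i + 2) ∈ A (i + 2) := fun i u hu => h.wA i _ u hu (z2 i)
  have nextA : ∀ i, ∀ u ∈ A i, w u (i + 1) ∈ A (i + 1) := fun i u hu => h.wA i _ u hu (z1 i)
  have nextprev : ∀ i, ∀ u ∈ A i, w (w u (i + 2)) i = u := fun i u hu => h.ww i _ u hu (z2 i)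
  have prevnext : ∀ i, ∀ u ∈ A i, w (w u (i + 1)) i = u := fun i u hu => h.ww i _ u hu (z1 i)
  have hh0 : ∀ i, ∀ u ∈ A i, hh u ≠ 0 := by
    intro i u hu he
    have h1 := hx1 (i + 2) _ (prevA i u hu)
    rw [z4, nextprev i u hu] at h1
    simp only [hhh, kA i u hu] at he
    apply h1
    have h2 : ∀ a b : F2, a + b = 0 → b = a := by decide
    exact h2 _ _ he
  have hhsum : ∀ i, ∑ u ∈ A i, hh u = S i + S (i + 2) := by
    intro i
    have h1 : ∑ u ∈ A i, hh u = ∑ u ∈ A i, (x u + x (w u (i + 2))) :=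
      sum_congr rfl fun u hu => by simp only [hhh, kA i u hu]
    rw [h1, sum_add_distrib]
    congr 1
    refine sum_bij (fun u _ => w u (i + 2)) (fun u hu => prevA i u hu) ?_ ?_ ?_
    · intro u hu u' hu' he
      rw [← nextprev i u hu, ← nextprev i u' hu', he]
    · intro v hv
      refine ⟨w v i, ?_, ?_⟩
      · have := h.wA (i + 2) i v hv (z2 i).symm
        exact this
      · exact h.ww (i + 2) i v hv (z2 i).symm
    · intro u hu; rfl
  -- membership facts
  have dTn : ∀ i, d i ∉ T := h.dT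
  have dh : ∀ i, ∃ j, d i = d j := fun i => ⟨i, rfl⟩
  have Ad : ∀ i, ∀ u ∈ A i, ¬ ∃ j, u = d j := by
    rintro i u hu ⟨j, rfl⟩
    exact h.dA j i hu
  have ATn : ∀ i, ∀ u ∈ A i, u ∉ T := fun i u hu => disjoint_left.1 (h.AT i) hu
  have Rw1 : ∀ i, ∀ u ∈ A i, R u (w u (i + 1)) := by
    intro i u hu
    have : w u (i + 1) ∈ univ.filter (R u) := by
      rw [h.nA i u hu]; simp
    exact (mem_filter.1 this).2
  -- the values
  set g : V → V → F2 := fun y z => if y ∈ T then τ (k z) else if z ∈ T then τ (k y) else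
    if ∃ i, y = d i then hh z else if ∃ i, z = d i then hh y else
    if z = w y (k y + 1) then x y else x z with hg
  have gT : ∀ y ∈ T, ∀ i, g y (d i) = τ i := fun y hy i => by simp [hg, hy, kd]
  have gT' : ∀ y ∈ T, ∀ i, g (d i) y = τ i := fun y hy i => by simp [hg, hy, kd, h.dT]
  have gd : ∀ i, ∀ u ∈ A i, g (d i) u = hh u := fun i u hu => by
    simp [hg, h.dT, ATn i u hu]
  have gd' : ∀ i, ∀ u ∈ A i, g u (d i) = hh u := fun i u hu => by
    simp [hg, h.dT, ATn i u hu, Ad i u hu]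
  have gn : ∀ i, ∀ u ∈ A i, g u (w u (i + 1)) = x u := fun i u hu => by
    have h1 := nextA i u hu
    simp [hg, ATn i u hu, Ad i u hu, ATn _ _ h1, Ad _ _ h1, kA i u hu]
  have gp : ∀ i, ∀ u ∈ A i, g u (w u (i + 2)) = x (w u (i + 2)) := fun i u hu => by
    have h1 := prevA i u hu
    have h2 := nextA i u hu
    have h3 : w u (i + 2) ≠ w u (i + 1) := fun he => by
      rw [he] at h1
      exact disjoint_left.1 (h.AA _ _ (z3 i)) h2 h1
    simp [hg, ATn i u hu, Ad i u hu, ATn _ _ h1, Ad _ _ h1, kA i u hu, h3]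
  -- the cases of two neighbours
  have cases' : ∀ y z, R y z → (∃ i, y = d i ∧ z ∈ A i) ∨ (∃ i, y = d i ∧ z ∈ T) ∨
      (∃ i, y ∈ A i ∧ z = d i) ∨ (∃ i, y ∈ A i ∧ z = w y (i + 1)) ∨
      (∃ i, y ∈ A i ∧ z = w y (i + 2)) ∨ (∃ i, y ∈ T ∧ z = d i) := by
    intro y z hyz
    have hz : z ∈ univ.filter (R y) := mem_filter.2 ⟨mem_univ _, hyz⟩
    rcases h.iso y ⟨z, hyz⟩ with ⟨i, rfl⟩ | ⟨i, hi⟩ | hy
    · rw [h.nd i, mem_union] at hz
      rcases hz with hz | hz
      · exact Or.inl ⟨i, rfl, hz⟩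
      · exact Or.inr (Or.inl ⟨i, rfl, hz⟩)
    · rw [h.nA i y hi, mem_insert, mem_insert, mem_singleton] at hz
      rcases hz with hz | hz | hz
      · exact Or.inr (Or.inr (Or.inl ⟨i, hi, hz⟩))
      · exact Or.inr (Or.inr (Or.inr (Or.inl ⟨i, hi, hz⟩)))
      · exact Or.inr (Or.inr (Or.inr (Or.inr (Or.inl ⟨i, hi, hz⟩))))
    · rw [h.nT y hy, mem_image] at hz
      obtain ⟨i, -, hi⟩ := hz
      exact Or.inr (Or.inr (Or.inr (Or.inr (Or.inr ⟨i, hy, hi.symm⟩))))
  have τ0 : ∀ y ∈ T, ∀ i, τ i ≠ 0 := by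
    intro y hy i he
    have h1 : T ≠ ∅ := fun h2 => by rw [h2] at hy; simp at hy
    have h2 := hxN h1 i (i + 2) (z2 i)
    apply h2
    have h3 : ∀ a b : F2, a + b = 0 → a = b := by decide
    exact h3 _ _ he
  refine ⟨g, ?_, ?_, ?_⟩
  · intro y z hyz
    rcases cases' y z hyz with ⟨i, rfl, hz⟩ | ⟨i, rfl, hz⟩ | ⟨i, hy, rfl⟩ | ⟨i, hy, rfl⟩ |
      ⟨i, hy, rfl⟩ | ⟨i, hy, rfl⟩
    · rw [gd i z hz, gd' i z hz]
    · rw [gT z hz, gT' z hz]
    · rw [gd i y hy, gd' i y hy]
    · rw [gn i y hy]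
      have h1 := gp (i + 1) _ (nextA i y hy)
      rw [z5, prevnext i y hy] at h1
      exact h1.symm
    · rw [gp i y hy]
      have h1 := gn (i + 2) _ (prevA i y hy)
      rw [z4, nextprev i y hy] at h1
      exact h1.symm
    · rw [gT y hy, gT' y hy]
  · intro y z hyz
    rcases cases' y z hyz with ⟨i, rfl, hz⟩ | ⟨i, rfl, hz⟩ | ⟨i, hy, rfl⟩ | ⟨i, hy, rfl⟩ |
      ⟨i, hy, rfl⟩ | ⟨i, hy, rfl⟩
    · rw [gd i z hz]; exact hh0 i z hz
    · rw [gT' z hz]; exact τ0 z hz i
    · rw [gd' i y hy]; exact hh0 i y hy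
    · rw [gn i y hy]; exact hx0 i y hy
    · rw [gp i y hy]; exact hx0 _ _ (prevA i y hy)
    · rw [gT y hy]; exact τ0 y hy i
  · intro y
    by_cases hy : ∃ z, R y z
    · rcases h.iso y hy with ⟨i, rfl⟩ | ⟨i, hi⟩ | hy
      · rw [h.nd i, sum_union (h.AT i), sum_congr rfl (fun u hu => gd i u hu), hhsum i,
          sum_congr rfl (fun u hu => gT' u hu i), sum_const]
        by_cases hT : T = ∅
        · have h1 : S i = S (i + 2) := hxE hT _ _
          rw [hT, card_empty, zero_smul, add_zero, h1]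
          have h3 : ∀ a : F2, a + a = 0 := by decide
          exact h3 _
        · have h1 : T.card = 1 := by
            have h2 := h.Tc
            have h3 : 0 < T.card := card_pos.2 (nonempty_iff_ne_empty.2 hT)
            omega
          rw [h1, one_smul]
          have h3 : ∀ a : F2, a + a = 0 := by decide
          exact h3 _
      · have h1 : d i ∉ ({w y (i + 1), w y (i + 2)} : Finset V) := by
          rw [mem_insert, mem_singleton, not_or]
          exact ⟨fun he => Ad _ _ (nextA i y hi) ⟨i, he.symm⟩,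
            fun he => Ad _ _ (prevA i y hi) ⟨i, he.symm⟩⟩
        have h2 : w y (i + 1) ∉ ({w y (i + 2)} : Finset V) := by
          rw [mem_singleton]
          intro he
          have h3 := nextA i y hi
          rw [he] at h3
          exact disjoint_left.1 (h.AA _ _ (z3 i)) h3 (prevA i y hi)
        rw [h.nA i y hi, sum_insert h1, sum_insert h2, sum_singleton, gd' i y hi, gn i y hi,
          gp i y hi]
        simp only [hhh, kA i y hi]
        have h3 : ∀ a b : F2, a + b + (a + b) = 0 := by decide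
        exact h3 _ _
      · rw [h.nT y hy, sum_image (fun a _ b _ hab => h.dinj hab),
          sum_congr rfl (fun i _ => gT y hy i)]
        have h1 : (univ : Finset (ZMod 3)) = {0, 1, 2} := by decide
        rw [h1, sum_insert (by decide), sum_insert (by decide), sum_singleton]
        show S 0 + S (0 + 2) + (S 1 + S (1 + 2) + (S 2 + S (2 + 2))) = 0
        have e0 : (0 : ZMod 3) + 2 = 2 := by decide
        have e1 : (1 : ZMod 3) + 2 = 0 := by decide
        have e2 : (2 : ZMod 3) + 2 = 1 := by decide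
        rw [e0, e1, e2]
        have h3 : ∀ a b c : F2, a + c + (b + a + (c + b)) = 0 := by decide
        exact h3 _ _ _
    · have h1 : univ.filter (R y) = ∅ := by
        rw [filter_eq_empty_iff]
        intro z _ hz
        exact hy ⟨z, hz⟩
      rw [h1, sum_empty]

end Pool.Agent.W5h7.Dom
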