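import Pool.Agent.W5h7.Dom.Link
import Pool.Agent.W5h7.Dom.Pairs
import Pool.Agent.R545.IN.Main

set_option autoImplicit false
set_option linter.unusedSectionVars false
set_option synthInstance.maxHeartbeats 400000
set_option synthInstance.maxSize 2048

/-!
# Graphs whose reduction is dominated by three vertices
-/

namespace Pool.Agent.W5h7.Dom

open Finset Pool.Agent.TH362.TF Pool.Agent.TH362.TF.Four Pool.Agent.R890.FF Pool.Agent.R545.IN

/-- The edge `e` joins the vertices `x` and `y`. -/
def Joins {V E : Type} (s t : E → V) (e : E) (x y : V) : Prop :=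
  (s e = x ∧ t e = y) ∨ (s e = y ∧ t e = x)

/-- The smallest equivalence relation on the vertices such that two, three or four different edges
which form a circuit, after vertices which are already tied have been identified, have all their
ends tied. -/
inductive Tied {V E : Type} (s t : E → V) : V → V → Prop
  | refl (x : V) : Tied s t x x
  | symm {x y : V} (h : Tied s t x y) : Tied s t y x
  | trans {x y z : V} (h : Tied s t x y) (h' : Tied s t y z) : Tied s t x z
  | two {x y x' y' : V} {e f : E} (hef : e ≠ f) (he : Joins s t e x y) (hy : Tied s t y y')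
      (hf : Joins s t f y' x') (hx : Tied s t x' x) : Tied s t x y
  | three {x y z x' y' z' : V} {e f g : E} (hef : e ≠ f) (heg : e ≠ g) (hfg : f ≠ g)
      (he : Joins s t e x y) (hy : Tied s t y y') (hf : Joins s t f y' z) (hz : Tied s t z z')
      (hg : Joins s t g z' x') (hx : Tied s t x' x) : Tied s t x y
  | four {x y z u x' y' z' u' : V} {e f g h : E} (hef : e ≠ f) (heg : e ≠ g) (heh : e ≠ h)
      (hfg : f ≠ g) (hfh : f ≠ h) (hgh : g ≠ h) (he : Joins s t e x y) (hy : Tied s t y y')
      (hf : Joins s t f y' z) (hz : Tied s t z z') (hg : Joins s t g z' u) (hu : Tied s t u u')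
      (hh : Joins s t h u' x') (hx : Tied s t x' x) : Tied s t x y

variable {V E : Type} [Fintype V] [DecidableEq V] [DecidableEq E]

theorem tied_eq [Fintype E] {s t : E → V} {π : V → V}
    (h : Mq (fun e => π (s e)) (fun e => π (t e)) univ) {x y : V} (hxy : Tied s t x y) :
    π x = π y := by
  have hmap : ∀ {u w : V} {e : E}, Joins s t e u w →
      Ends (fun e => π (s e)) (fun e => π (t e)) (π u) (π w) e := by
    intro u w e hE
    rcases hE with ⟨h2, h3⟩ | ⟨h2, h3⟩
    · exact Or.inl ⟨congrArg π h2, congrArg π h3⟩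
    · exact Or.inr ⟨congrArg π h2, congrArg π h3⟩
  induction hxy with
  | refl x => rfl
  | symm _ ih => exact ih.symm
  | trans _ _ ih ih' => exact ih.trans ih'
  | two hef he hy hf hx ihy ihx =>
    by_contra hne
    have k1 := hmap he
    have k2 := hmap hf
    rw [← ihy, ihx] at k2
    exact hef (h.nopar hne (mem_univ _) (mem_univ _) k1 (ends_comm' k2))
  | three hef heg hfg he hy hf hz hg hx ihy ihz ihx =>
    by_contra hne
    have k1 := hmap he
    have k2 := hmap hf
    have k3 := hmap hg
    rw [← ihy] at k2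
    rw [← ihz, ihx] at k3
    rename_i x y z x' y' z' e f g
    by_cases h1 : π y = π z
    · rw [← h1] at k3
      exact heg (h.nopar hne (mem_univ _) (mem_univ _) k1 (ends_comm' k3))
    · by_cases h2 : π z = π x
      · rw [h2] at k2
        exact hef (h.nopar hne (mem_univ _) (mem_univ _) k1 (ends_comm' k2))
      · exact h.tri (a := π x) (b := π y) (c := π z) ⟨Ne.symm hne, e, mem_univ _, k1⟩
          ⟨Ne.symm h1, f, mem_univ _, k2⟩ ⟨Ne.symm h2, g, mem_univ _, k3⟩
  | four hef heg heh hfg hfh hgh he hy hf hz hg hu hh hx ihy ihz ihu ihx =>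
    by_contra hne
    have k1 := hmap he
    have k2 := hmap hf
    have k3 := hmap hg
    have k4 := hmap hh
    rw [← ihy] at k2
    rw [← ihz] at k3
    rw [← ihu, ihx] at k4
    rename_i x y z u x' y' z' u' e f g h'
    by_cases h1 : π x = π z
    · rw [← h1] at k2
      exact hef (h.nopar hne (mem_univ _) (mem_univ _) k1 (ends_comm' k2))
    · by_cases h2 : π y = π u
      · rw [← h2] at k4
        exact heh (h.nopar hne (mem_univ _) (mem_univ _) k1 (ends_comm' k4))
      · by_cases h3 : π y = π z
        · rw [← h3] at k3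
          by_cases h4 : π u = π x
          · rw [h4] at k3
            exact heg (h.nopar hne (mem_univ _) (mem_univ _) k1 (ends_comm' k3))
          · exact h.tri (a := π x) (b := π y) (c := π u) ⟨Ne.symm hne, e, mem_univ _, k1⟩
              ⟨Ne.symm h2, g, mem_univ _, k3⟩ ⟨Ne.symm h4, h', mem_univ _, k4⟩
        · by_cases h4 : π z = π u
          · rw [← h4] at k4
            exact h.tri (a := π x) (b := π y) (c := π z) ⟨Ne.symm hne, e, mem_univ _, k1⟩
              ⟨Ne.symm h3, f, mem_univ _, k2⟩ ⟨h1, h', mem_univ _, k4⟩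
          · by_cases h5 : π u = π x
            · rw [h5] at k3
              exact h.tri (a := π x) (b := π y) (c := π z) ⟨Ne.symm hne, e, mem_univ _, k1⟩
                ⟨Ne.symm h3, f, mem_univ _, k2⟩ ⟨h1, g, mem_univ _, k3⟩
            · exact h.four (a := π x) (b := π y) (c := π z) (d := π u) h1 h2
                ⟨Ne.symm hne, e, mem_univ _, k1⟩ ⟨Ne.symm h3, f, mem_univ _, k2⟩
                ⟨Ne.symm h4, g, mem_univ _, k3⟩ ⟨Ne.symm h5, h', mem_univ _, k4⟩

/-- **graphs whose reduction is dominated by three vertices** -/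
theorem dom_three [Fintype E] (s t : E → V) (h1 : N1 s t univ) (c : Fin 3 → V)
    (hc : ∀ e₀ v w, Joins s t e₀ v w → ∃ i, Tied s t v (c i) ∨
      ∃ e x y, Joins s t e x y ∧ Tied s t v x ∧ Tied s t y (c i)) :
    NZ s t univ ∨ PQ s t univ := by
  classical
  by_contra hcon
  rw [not_or] at hcon
  obtain ⟨π, hM⟩ := exists_Mq s t univ h1 hcon.1 hcon.2
  set R := Nb (fun e => π (s e)) (fun e => π (t e)) univ with hR
  set d : ZMod 3 → V := fun i => π (c i) with hd
  have hyp : Hyp R d := by
    refine ⟨good_nb hM, ?_, ?_, ?_⟩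
    · intro y hy
      obtain ⟨z, hz⟩ := hy
      have k1 : 0 < (univ.filter (R y)).card := card_pos.2 ⟨z, mem_filter.2 ⟨mem_univ _, hz⟩⟩
      have k2 := hM.nb_ne_one y
      have k3 := hM.nb_ne_two y
      rw [← hR] at k2 k3
      omega
    · refine hM.odd18.trans (card_le_card fun y hy => ?_)
      have k1 := (hM.odd_nb y).1 hy
      exact mem_filter.2 ⟨mem_univ _, k1⟩
    · intro y hy
      obtain ⟨z, -, e, -, hE⟩ := hy
      obtain ⟨v, w, hv, hJ⟩ : ∃ v w, π v = y ∧ Joins s t e v w := by
        rcases hE with ⟨k1, _⟩ | ⟨_, k1⟩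
        · exact ⟨s e, t e, k1, Or.inl ⟨rfl, rfl⟩⟩
        · exact ⟨t e, s e, k1, Or.inr ⟨rfl, rfl⟩⟩
      obtain ⟨i, hi | ⟨f, x, x', hf, hx, hx'⟩⟩ := hc e v w hJ
      · refine ⟨i, Or.inl ?_⟩
        rw [← hv]
        exact tied_eq hM hi
      · by_cases hyd : y = d i
        · exact ⟨i, Or.inl hyd⟩
        · refine ⟨i, Or.inr ⟨Ne.symm hyd, f, mem_univ _, ?_⟩⟩
          have k1 : π v = π x := tied_eq hM hx
          have k2 : π x' = d i := tied_eq hM hx'
          rw [← hv, ← k2, k1]
          rcases hf with ⟨k3, k4⟩ | ⟨k3, k4⟩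
          · exact Or.inl ⟨congrArg π k3, congrArg π k4⟩
          · exact Or.inr ⟨congrArg π k3, congrArg π k4⟩
  obtain ⟨w, A, T, hC⟩ := exists_conf hyp
  obtain ⟨g, g1, g2, g3⟩ := exists_g hC
  exact NZ_of_pairs hM g g1 g2 g3

end Pool.Agent.W5h7.Dom
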