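import Pool.Agent.R890.FF.Min
import Pool.Agent.R545.IN.Ramsey

set_option autoImplicit false
set_option linter.unusedSectionVars false

/-!
# Flows on minimal quotients from symmetric functions on pairs of neighbours
-/

namespace Pool.Agent.W5h7.Dom

open Finset Pool.Agent.TH362.TF Pool.Agent.TH362.TF.Four Pool.Agent.R890.FF

variable {V E : Type} [Fintype V] [DecidableEq V] [DecidableEq E]

/-- the sum of the values at a vertex as a sum over its neighbours -/
theorem B_nb {s t : E → V} {S : Finset E} (h : Mq s t S) (g : V → V → F) (φ : E → F)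
    (hφ : ∀ e ∈ S, s e ≠ t e → φ e = g (s e) (t e))
    (hg : ∀ y z, Nb s t S y z → g y z = g z y) (y : V) [DecidablePred (Nb s t S y)] :
    B s t S φ y = ∑ z ∈ univ.filter (Nb s t S y), g y z := by
  classical
  rw [B_cut]
  have hends : ∀ e ∈ cut s t S (fun u => decide (u = y)), ∃ z, z ≠ y ∧ Ends s t y z e := by
    intro e he
    have h2 := (mem_filter.1 he).2
    by_cases h3 : s e = y
    · refine ⟨t e, fun h4 => h2 (by simp [h3, h4]), Or.inl ⟨h3, rfl⟩⟩
    · by_cases h4 : t e = y
      · exact ⟨s e, h3, Or.inr ⟨rfl, h4⟩⟩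
      · exact absurd (by simp [h3, h4]) h2
  have : Nonempty V := ⟨y⟩
  choose! z hz hE using hends
  have hS : ∀ e ∈ cut s t S (fun u => decide (u = y)), e ∈ S := fun e he => (mem_filter.1 he).1
  refine sum_bij (fun e _ => z e) ?_ ?_ ?_ ?_
  · intro e he
    exact mem_filter.2 ⟨mem_univ _, hz e he, e, hS e he, hE e he⟩
  · intro e he e' he' hee
    have h1 := hE e he
    have h2 := hE e' he'
    rw [← hee] at h2
    exact h.nopar (Ne.symm (hz e he)) (hS e he) (hS e' he') h1 h2
  · intro w hw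
    obtain ⟨-, h1, e, h2, h3⟩ := mem_filter.1 hw
    have he : e ∈ cut s t S (fun u => decide (u = y)) := by
      refine mem_filter.2 ⟨h2, ?_⟩
      rcases h3 with ⟨h4, h5⟩ | ⟨h4, h5⟩ <;> simp [h4, h5, h1]
    refine ⟨e, he, ?_⟩
    have h6 := hE e he
    have h7 := hz e he
    rcases h3 with ⟨h4, h5⟩ | ⟨h4, h5⟩ <;> rcases h6 with ⟨h8, h9⟩ | ⟨h8, h9⟩
    · rw [← h9, h5]
    · exact absurd (h8.symm.trans h4) h7
    · exact absurd (h9.symm.trans h5) h7
    · rw [← h8, h4]
  · intro e he
    have h1 := hE e he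
    have h2 := hz e he
    have h3 : Nb s t S y (z e) := ⟨h2, e, hS e he, h1⟩
    rcases h1 with ⟨h4, h5⟩ | ⟨h4, h5⟩
    · rw [hφ e (hS e he) (by rw [h4, h5]; exact h2.symm), h4, h5]
    · rw [hφ e (hS e he) (by rw [h4, h5]; exact h2), h4, h5]
      exact (hg y (z e) h3).symm

/-- a symmetric nowhere-zero function on the pairs of neighbours whose sums vanish is a flow -/
theorem NZ_of_pairs {s t : E → V} {S : Finset E} (h : Mq s t S)
    [∀ y, DecidablePred (Nb s t S y)] (g : V → V → F)
    (hg : ∀ y z, Nb s t S y z → g y z = g z y) (h0 : ∀ y z, Nb s t S y z → g y z ≠ 0)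
    (hs : ∀ y, ∑ z ∈ univ.filter (Nb s t S y), g y z = 0) : False := by
  refine h.nz ⟨fun e => if s e = t e then (1, 0) else g (s e) (t e), fun e he => ?_, fun v => ?_⟩
  · by_cases h1 : s e = t e
    · simp only [h1, if_true]; decide
    · simp only [h1, if_false]
      exact h0 _ _ ⟨Ne.symm h1, e, he, Or.inl ⟨rfl, rfl⟩⟩
  · have h1 := B_nb h g (fun e => if s e = t e then (1, 0) else g (s e) (t e))
      (fun e _ h2 => by simp [h2]) hg v
    rw [hs v] at h1
    exact h1

end Pool.Agent.W5h7.Dom
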