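import Pool.Agent.W5h7.Dom.Str

set_option autoImplicit false
set_option linter.unusedSectionVars false

/-!
# The values on a graph without short circuits which is dominated by three vertices
-/

namespace Pool.Agent.W5h7.Dom

open Finset Pool.Agent.R545.IN

abbrev F2 := ZMod 2 × ZMod 2

variable {V : Type} [Fintype V] [DecidableEq V]

/-- the three values -/
def la : F2 := (1, 0)
def lb : F2 := (0, 1)
def lc : F2 := (1, 1)

def X0 (q sr : V) (α β : ZMod 2) (u : V) : F2 :=
  la + (if u = q then α • lc else 0) + (if u = sr then β • lb else 0)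
def X1 (mq mp : V) (α : ZMod 2) (u : V) : F2 :=
  lb + (if u = mq then α • lc else 0) + (if u = mp then α • la else 0)
def X2 (lp lr : V) (α β : ZMod 2) (u : V) : F2 :=
  lc + (if u = lp then α • la else 0) + (if u = lr then β • lb else 0)

variable {R : V → V → Prop} [∀ y, DecidablePred (R y)] {d : ZMod 3 → V}
  {w : V → ZMod 3 → V} {A : ZMod 3 → Finset V} {T : Finset V}

theorem Conf.card_le (h : Conf R d w A T) (i j : ZMod 3) : (A i).card ≤ (A j).card := by
  by_cases hij : i = j
  · rw [hij]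
  · refine card_le_card_of_injOn (fun u => w u j) (fun u hu => h.wA i j u hu hij) ?_
    intro u hu u' hu' he
    have h1 := h.ww i j u hu hij
    have h2 := h.ww i j u' hu' hij
    have he' : w u j = w u' j := he
    rw [← h1, ← h2, he']

theorem Conf.card_eq (h : Conf R d w A T) (i j : ZMod 3) : (A i).card = (A j).card :=
  le_antisymm (h.card_le i j) (h.card_le j i)

theorem sum_ite_pt (s : Finset V) (p : V) (hp : p ∈ s) (c : F2) :
    ∑ u ∈ s, (if u = p then c else 0) = c := by
  rw [sum_ite_eq' s p]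
  simp [hp]

theorem dec0 : ∀ α β : ZMod 2, la ≠ 0 ∧ la + α • lc ≠ 0 ∧ la + β • lb ≠ 0 ∧
    lb ≠ 0 ∧ lb + α • lc ≠ 0 ∧ lb + α • la ≠ 0 ∧ lc ≠ 0 ∧ lc + α • la ≠ 0 ∧ lc + β • lb ≠ 0 := by
  decide

theorem exists_x (h : Conf R d w A T) : ∃ x : V → F2, (∀ i, ∀ u ∈ A i, x u ≠ 0) ∧
    (∀ i, ∀ u ∈ A i, x u ≠ x (w u (i + 1))) ∧
    (T = ∅ → ∀ i j, ∑ u ∈ A i, x u = ∑ u ∈ A j, x u) ∧
    (T ≠ ∅ → ∀ i j, i ≠ j → ∑ u ∈ A i, x u ≠ ∑ u ∈ A j, x u) := by
  classical
  have m01 : (0 : ZMod 3) ≠ 1 := by decide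
  have m12 : (1 : ZMod 3) ≠ 2 := by decide
  have m20 : (2 : ZMod 3) ≠ 0 := by decide
  set m : V → V := fun v => w v 1 with hm
  set l : V → V := fun v => w (m v) 2 with hl
  set σ : V → V := fun v => w (l v) 0 with hσ
  have mA : ∀ v ∈ A 0, m v ∈ A 1 := fun v hv => h.wA 0 1 v hv m01
  have lA : ∀ v ∈ A 0, l v ∈ A 2 := fun v hv => h.wA 1 2 _ (mA v hv) m12
  have sA : ∀ v ∈ A 0, σ v ∈ A 0 := fun v hv => h.wA 2 0 _ (lA v hv) m20
  have mi : ∀ v ∈ A 0, ∀ v' ∈ A 0, m v = m v' → v = v' := by
    intro v hv v' hv' he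
    rw [← h.ww 0 1 v hv m01, ← h.ww 0 1 v' hv' m01]
    show w (m v) 0 = w (m v') 0
    rw [he]
  have li : ∀ v ∈ A 0, ∀ v' ∈ A 0, l v = l v' → v = v' := by
    intro v hv v' hv' he
    apply mi v hv v' hv'
    rw [← h.ww 1 2 _ (mA v hv) m12, ← h.ww 1 2 _ (mA v' hv') m12]
    show w (l v) 1 = w (l v') 1
    rw [he]
  have si : ∀ v ∈ A 0, ∀ v' ∈ A 0, σ v = σ v' → v = v' := by
    intro v hv v' hv' he
    apply li v hv v' hv'
    rw [← h.ww 2 0 _ (lA v hv) m20, ← h.ww 2 0 _ (lA v' hv') m20]
    show w (σ v) 2 = w (σ v') 2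
    rw [he]
  -- every element of `A 1` is an `m v`, and so on
  have ms : ∀ u ∈ A 1, ∃ v ∈ A 0, m v = u := fun u hu =>
    ⟨w u 0, h.wA 1 0 u hu m01.symm, h.ww 1 0 u hu m01.symm⟩
  have ls : ∀ u ∈ A 2, ∃ v ∈ A 0, l v = u := by
    intro u hu
    obtain ⟨v, hv, hv'⟩ := ms (w u 1) (h.wA 2 1 u hu m12.symm)
    refine ⟨v, hv, ?_⟩
    show w (m v) 2 = u
    rw [hv']
    exact h.ww 2 1 u hu m12.symm
  have ss : ∀ u ∈ A 0, ∃ v ∈ A 0, σ v = u := by
    intro u hu
    obtain ⟨v, hv, hv'⟩ := ls (w u 2) (h.wA 0 2 u hu m20.symm)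
    refine ⟨v, hv, ?_⟩
    show w (l v) 0 = u
    rw [hv']
    exact h.ww 0 2 u hu m20.symm
  -- choice of the three vertices
  have hc := h.card5 0
  obtain ⟨p, hp⟩ := card_pos.1 (show 0 < (A 0).card by omega)
  obtain ⟨p', hp', hpp⟩ := ss p hp
  obtain ⟨r, hr, hr'⟩ : ∃ r ∈ A 0, r ∉ ({p, p'} : Finset V) := by
    by_contra hcon
    push Not at hcon
    have h1 : (A 0).card ≤ _ := card_le_card (fun x hx => hcon x hx)
    have h2 : ({p, p'} : Finset V).card ≤ 2 := card_le_two
    omega
  obtain ⟨q, hq, hq'⟩ : ∃ q ∈ A 0, q ∉ ({p, σ p, r, σ r} : Finset V) := by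
    by_contra hcon
    push Not at hcon
    have h1 : (A 0).card ≤ _ := card_le_card (fun x hx => hcon x hx)
    have h2 : ({p, σ p, r, σ r} : Finset V).card ≤ 4 := card_le_four
    omega
  simp only [mem_insert, mem_singleton, not_or] at hr' hq'
  obtain ⟨rp, rp'⟩ := hr'
  obtain ⟨qp, qsp, qr, qsr⟩ := hq'
  have psr : p ≠ σ r := by
    intro he
    exact rp' (si r hr p' hp' (by rw [hpp, ← he]))
  -- the values of the parameters
  obtain ⟨α, β, hE, hN⟩ : ∃ α β : ZMod 2,
      (T = ∅ → ((A 0).card • la + α • lc + β • lb = (A 0).card • lb + α • lc + α • la ∧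
        (A 0).card • lb + α • lc + α • la = (A 0).card • lc + α • la + β • lb)) ∧
      (T ≠ ∅ → ((A 0).card • la + α • lc + β • lb ≠ (A 0).card • lb + α • lc + α • la ∧
        (A 0).card • lb + α • lc + α • la ≠ (A 0).card • lc + α • la + β • lb ∧
        (A 0).card • lc + α • la + β • lb ≠ (A 0).card • la + α • lc + β • lb)) := by
    have hnz : ∀ c : F2, (A 0).card • c = ((A 0).card : ZMod 2) • c := fun c => by
      rw [Nat.cast_smul_eq_nsmul]
    rw [hnz, hnz, hnz]
    generalize ((A 0).card : ZMod 2) = ν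
    by_cases hT : T = ∅
    · simp only [hT, forall_true_left, ne_eq, not_true, false_imp_iff, and_true]
      revert ν; decide
    · simp only [hT, false_imp_iff, ne_eq, not_false_eq_true, forall_true_left, true_and]
      revert ν; decide
  -- the values
  have e0 : ∀ v ∈ A 0, X0 q (σ r) α β v ≠ 0 := by
    intro v hv
    obtain ⟨k1, k2, k3, k4, k5, k6, k7, k8, k9⟩ := dec0 α β
    unfold X0
    by_cases h1 : v = q
    · simpa [h1, qsr] using k2
    · by_cases h2 : v = σ r
      · simpa [h2, Ne.symm qsr] using k3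
      · simpa [h1, h2] using k1
  have e1 : ∀ v ∈ A 0, X1 (m q) (m p) α (m v) ≠ 0 := by
    intro v hv
    obtain ⟨k1, k2, k3, k4, k5, k6, k7, k8, k9⟩ := dec0 α β
    unfold X1
    by_cases h1 : v = q
    · have h2 : m q ≠ m p := fun he => qp (mi q hq p hp he)
      simpa [h1, h2] using k5
    · have h1' : m v ≠ m q := fun he => h1 (mi v hv q hq he)
      by_cases h2 : v = p
      · rw [h2] at h1'
        simpa [h2, h1'] using k6
      · have h2' : m v ≠ m p := fun he => h2 (mi v hv p hp he)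
        simpa [h1', h2'] using k4
  have e2 : ∀ v ∈ A 0, X2 (l p) (l r) α β (l v) ≠ 0 := by
    intro v hv
    obtain ⟨k1, k2, k3, k4, k5, k6, k7, k8, k9⟩ := dec0 α β
    unfold X2
    by_cases h1 : v = p
    · have h2 : l p ≠ l r := fun he => rp (li p hp r hr he).symm
      simpa [h1, h2] using k8
    · have h1' : l v ≠ l p := fun he => h1 (li v hv p hp he)
      by_cases h2 : v = r
      · rw [h2] at h1'
        simpa [h2, h1'] using k9
      · have h2' : l v ≠ l r := fun he => h2 (li v hv r hr he)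
        simpa [h1', h2'] using k7
  have f0 : ∀ v ∈ A 0, X0 q (σ r) α β v ≠ X1 (m q) (m p) α (m v) := by
    intro v hv
    unfold X0 X1
    by_cases h1 : v = q
    · have h2 : m q ≠ m p := fun he => qp (mi q hq p hp he)
      simp only [h1, if_true, h2, if_false, qsr]
      clear hE hN e0 e1 e2
      revert α β; decide
    · have h1' : m v ≠ m q := fun he => h1 (mi v hv q hq he)
      by_cases h2 : v = p
      · have h3 : v ≠ σ r := by rw [h2]; exact psr
        rw [h2] at h1' h3
        simp only [h2, Ne.symm qp, if_false, h3, h1', if_true]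
        clear hE hN e0 e1 e2
        revert α β; decide
      · have h2' : m v ≠ m p := fun he => h2 (mi v hv p hp he)
        by_cases h3 : v = σ r
        · rw [h3] at h1' h2' h1
          simp only [h3, h1, if_false, if_true, h1', h2']
          clear hE hN e0 e1 e2
          revert α β; decide
        · simp only [h1, h3, h1', h2', if_false]
          decide
  have f1 : ∀ v ∈ A 0, X1 (m q) (m p) α (m v) ≠ X2 (l p) (l r) α β (l v) := by
    intro v hv
    unfold X1 X2
    by_cases h1 : v = q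
    · have h2 : m q ≠ m p := fun he => qp (mi q hq p hp he)
      have h3 : l q ≠ l p := fun he => qp (li q hq p hp he)
      have h4 : l q ≠ l r := fun he => qr (li q hq r hr he)
      simp only [h1, if_true, h2, if_false, h3, h4]
      clear hE hN e0 e1 e2 f0
      revert α; decide
    · have h1' : m v ≠ m q := fun he => h1 (mi v hv q hq he)
      by_cases h2 : v = p
      · have h4 : l p ≠ l r := fun he => rp (li p hp r hr he).symm
        rw [h2] at h1'
        simp only [h2, h1', if_false, if_true, h4]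
        clear hE hN e0 e1 e2 f0
        revert α; decide
      · have h2' : m v ≠ m p := fun he => h2 (mi v hv p hp he)
        have h3' : l v ≠ l p := fun he => h2 (li v hv p hp he)
        by_cases h3 : v = r
        · rw [h3] at h1' h2' h3'
          simp only [h3, h1', h2', h3', if_false, if_true]
          clear hE hN e0 e1 e2 f0
          revert β; decide
        · have h4' : l v ≠ l r := fun he => h3 (li v hv r hr he)
          simp only [h1', h2', h3', h4', if_false]
          decide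
  have f2 : ∀ v ∈ A 0, X2 (l p) (l r) α β (l v) ≠ X0 q (σ r) α β (σ v) := by
    intro v hv
    unfold X0 X2
    by_cases h1 : v = p
    · have h2 : l p ≠ l r := fun he => rp (li p hp r hr he).symm
      have h3 : σ p ≠ q := Ne.symm qsp
      have h4 : σ p ≠ σ r := fun he => rp (si p hp r hr he).symm
      simp only [h1, if_true, h2, if_false, h3, h4]
      clear hE hN e0 e1 e2 f0 f1
      revert α; decide
    · have h1' : l v ≠ l p := fun he => h1 (li v hv p hp he)
      by_cases h2 : v = r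
      · have h3 : σ r ≠ q := Ne.symm qsr
        rw [h2] at h1'
        simp only [h2, h1', if_false, if_true, h3]
        clear hE hN e0 e1 e2 f0 f1
        revert β; decide
      · have h2' : l v ≠ l r := fun he => h2 (li v hv r hr he)
        have h3' : σ v ≠ σ r := fun he => h2 (si v hv r hr he)
        by_cases h4 : σ v = q
        · have h5 : q ≠ σ r := qsr
          simp only [h1', h2', h4, if_false, if_true, h5]
          clear hE hN e0 e1 e2 f0 f1
          revert α; decide
        · simp only [h1', h2', h3', h4, if_false]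
          decide
  set x : V → F2 := fun u => if u ∈ A 0 then X0 q (σ r) α β u else
    if u ∈ A 1 then X1 (m q) (m p) α u else X2 (l p) (l r) α β u with hx
  have x0 : ∀ u ∈ A 0, x u = X0 q (σ r) α β u := fun u hu => by simp [hx, hu]
  have x1 : ∀ u ∈ A 1, x u = X1 (m q) (m p) α u := fun u hu => by
    have h1 : u ∉ A 0 := disjoint_left.1 (h.AA 1 0 m01.symm) hu
    simp [hx, hu, h1]
  have x2 : ∀ u ∈ A 2, x u = X2 (l p) (l r) α β u := fun u hu => by
    have h1 : u ∉ A 0 := disjoint_left.1 (h.AA 2 0 m20) hu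
    have h2 : u ∉ A 1 := disjoint_left.1 (h.AA 2 1 m12.symm) hu
    simp [hx, h1, h2]
  have t3 : ∀ i : ZMod 3, i = 0 ∨ i = 1 ∨ i = 2 := by decide
  have s0 : ∑ u ∈ A 0, x u = (A 0).card • la + α • lc + β • lb := by
    rw [sum_congr rfl x0]
    unfold X0
    rw [sum_add_distrib, sum_add_distrib, sum_const, sum_ite_pt _ _ hq,
      sum_ite_pt _ _ (sA r hr)]
  have s1 : ∑ u ∈ A 1, x u = (A 0).card • lb + α • lc + α • la := by
    rw [sum_congr rfl x1]
    unfold X1
    rw [sum_add_distrib, sum_add_distrib, sum_const, sum_ite_pt _ _ (mA q hq),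
      sum_ite_pt _ _ (mA p hp), h.card_eq 1 0]
  have s2 : ∑ u ∈ A 2, x u = (A 0).card • lc + α • la + β • lb := by
    rw [sum_congr rfl x2]
    unfold X2
    rw [sum_add_distrib, sum_add_distrib, sum_const, sum_ite_pt _ _ (lA p hp),
      sum_ite_pt _ _ (lA r hr), h.card_eq 2 0]
  refine ⟨x, ?_, ?_, ?_, ?_⟩
  · intro i u hu
    rcases t3 i with rfl | rfl | rfl
    · rw [x0 u hu]; exact e0 u hu
    · rw [x1 u hu]
      obtain ⟨v, hv, rfl⟩ := ms u hu
      exact e1 v hv
    · rw [x2 u hu]
      obtain ⟨v, hv, rfl⟩ := ls u hu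
      exact e2 v hv
  · intro i u hu
    rcases t3 i with rfl | rfl | rfl
    · have h1 : w u (0 + 1) = m u := by rw [hm, zero_add]
      rw [h1, x0 u hu, x1 _ (mA u hu)]
      exact f0 u hu
    · obtain ⟨v, hv, rfl⟩ := ms u hu
      have h1 : w (m v) (1 + 1) = l v := rfl
      rw [h1, x1 _ hu, x2 _ (lA v hv)]
      exact f1 v hv
    · obtain ⟨v, hv, rfl⟩ := ls u hu
      have h1 : w (l v) (2 + 1) = σ v := rfl
      rw [h1, x2 _ hu, x0 _ (sA v hv)]
      exact f2 v hv
  · intro hT i j
    obtain ⟨k1, k2⟩ := hE hT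
    rw [← s0, ← s1] at k1
    rw [← s1, ← s2] at k2
    rcases t3 i with rfl | rfl | rfl <;> rcases t3 j with rfl | rfl | rfl <;>
      simp [k1, k2]
  · intro hT i j hij
    obtain ⟨k1, k2, k3⟩ := hN hT
    rw [← s0, ← s1] at k1
    rw [← s1, ← s2] at k2
    rw [← s2, ← s0] at k3
    rcases t3 i with rfl | rfl | rfl <;> rcases t3 j with rfl | rfl | rfl
    · exact absurd rfl hij
    · exact k1
    · exact Ne.symm k3
    · exact Ne.symm k1
    · exact absurd rfl hij
    · exact k2
    · exact k3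
    · exact Ne.symm k2
    · exact absurd rfl hij

end Pool.Agent.W5h7.Dom
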