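import Pool.Agent.R545.IN.Ramsey
import Mathlib.Data.ZMod.Basic

set_option autoImplicit false
set_option linter.unusedSectionVars false

/-!
# Graphs without circuits of length three and four which are dominated by three vertices
-/

namespace Pool.Agent.W5h7.Dom

open Finset Pool.Agent.R545.IN

variable {V : Type} [Fintype V] [DecidableEq V]

/-- the vertex `z` is `c` or a neighbour of `c` -/
def Near (R : V → V → Prop) (c z : V) : Prop := z = c ∨ R z c

section
variable {R : V → V → Prop}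

theorem near_unique (h : Good R) {u c z z' : V} (hu : u ≠ c) (h1 : R u z) (h2 : R u z')
    (n1 : Near R c z) (n2 : Near R c z') : z = z' := by
  by_contra hne
  rcases n1 with rfl | n1
  · rcases n2 with rfl | n2
    · exact hne rfl
    · exact h.tri h2 n2 (h.symm h1)
  · rcases n2 with rfl | n2
    · exact h.tri h1 n1 (h.symm h2)
    · exact h.four hu hne h1 n1 (h.symm n2) (h.symm h2)

end

/-- the hypotheses -/
structure Hyp (R : V → V → Prop) [∀ y, DecidablePred (R y)] (d : ZMod 3 → V) : Prop where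
  good : Good R
  deg : ∀ y, (∃ z, R y z) → 3 ≤ (univ.filter (R y)).card
  odd : 18 ≤ (univ.filter (fun y => (univ.filter (R y)).card % 2 = 1)).card
  dom : ∀ y, (∃ z, R y z) → ∃ i, Near R (d i) y

/-- `w u i` is the only neighbour of `u` near `d i` -/
def IsW (R : V → V → Prop) (d : ZMod 3 → V) (u : V) (w : ZMod 3 → V) : Prop :=
  (∀ i, R u (w i)) ∧ (∀ i j, Near R (d j) (w i) ↔ i = j) ∧ (∀ z, R u z → ∃ i, z = w i)

section
variable {R : V → V → Prop} [∀ y, DecidablePred (R y)] {d : ZMod 3 → V}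

theorem exists_w (h : Hyp R d) (u : V) (hu : ∃ z, R u z) (hd : ∀ i, u ≠ d i) :
    ∃ w : ZMod 3 → V, IsW R d u w := by
  classical
  have hz : ∀ z ∈ univ.filter (R u), ∃ i, Near R (d i) z := fun z hz =>
    h.dom z ⟨u, h.good.symm (mem_filter.1 hz).2⟩
  choose! c hc using hz
  have hinj : Set.InjOn c (univ.filter (R u) : Finset V) := by
    intro z hz z' hz' hcc
    have h1 := hc z (mem_coe.1 hz)
    have h2 := hc z' (mem_coe.1 hz')
    rw [← hcc] at h2
    exact near_unique h.good (hd _) (mem_filter.1 (mem_coe.1 hz)).2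
      (mem_filter.1 (mem_coe.1 hz')).2 h1 h2
  have himg : (univ.filter (R u)).image c = univ := by
    apply Finset.eq_univ_of_card
    rw [card_image_of_injOn hinj]
    have h1 := h.deg u hu
    have h2 : ((univ.filter (R u)).image c).card ≤ Fintype.card (ZMod 3) := card_le_univ _
    rw [card_image_of_injOn hinj] at h2
    have h3 : Fintype.card (ZMod 3) = 3 := rfl
    omega
  have hsurj : ∀ i, ∃ z, R u z ∧ c z = i := by
    intro i
    have h1 : i ∈ (univ.filter (R u)).image c := by rw [himg]; exact mem_univ _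
    obtain ⟨z, hz, hzi⟩ := mem_image.1 h1
    exact ⟨z, (mem_filter.1 hz).2, hzi⟩
  choose w hw hcw using hsurj
  refine ⟨w, hw, fun i j => ⟨fun h1 => ?_, fun h1 => ?_⟩, fun z hz => ⟨c z, ?_⟩⟩
  · have h2 := hc (w j) (mem_filter.2 ⟨mem_univ _, hw j⟩)
    rw [hcw] at h2
    have h3 := near_unique h.good (hd j) (hw i) (hw j) h1 h2
    rw [← hcw i, ← hcw j, h3]
  · subst h1
    have h2 := hc (w i) (mem_filter.2 ⟨mem_univ _, hw i⟩)
    rwa [hcw] at h2
  · refine hinj (mem_coe.2 (mem_filter.2 ⟨mem_univ _, hz⟩))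
      (mem_coe.2 (mem_filter.2 ⟨mem_univ _, hw _⟩)) ?_
    rw [hcw]

/-- the structure: `A i` is the set of the vertices whose only neighbour among the `d j` is `d i`,
`T` is the set of the vertices adjacent to all `d j` -/
structure Conf (R : V → V → Prop) [∀ y, DecidablePred (R y)] (d : ZMod 3 → V)
    (w : V → ZMod 3 → V) (A : ZMod 3 → Finset V) (T : Finset V) : Prop where
  symm : ∀ {a b}, R a b → R b a
  irr : ∀ a, ¬ R a a
  dinj : Function.Injective d
  dA : ∀ i j, d i ∉ A j
  dT : ∀ i, d i ∉ T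
  AT : ∀ i, Disjoint (A i) T
  AA : ∀ i j, i ≠ j → Disjoint (A i) (A j)
  wA : ∀ i j u, u ∈ A i → i ≠ j → w u j ∈ A j
  ww : ∀ i j u, u ∈ A i → i ≠ j → w (w u j) i = u
  nA : ∀ i u, u ∈ A i → univ.filter (R u) = {d i, w u (i + 1), w u (i + 2)}
  nd : ∀ i, univ.filter (R (d i)) = A i ∪ T
  nT : ∀ u ∈ T, univ.filter (R u) = univ.image d
  Tc : T.card ≤ 1
  iso : ∀ y, (∃ z, R y z) → (∃ i, y = d i) ∨ (∃ i, y ∈ A i) ∨ y ∈ T
  card5 : ∀ i, 5 ≤ (A i).card

theorem exists_conf (h : Hyp R d) : ∃ (w : V → ZMod 3 → V) (A : ZMod 3 → Finset V)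
    (T : Finset V), Conf R d w A T := by
  classical
  have hw0 : ∀ u, (∃ z, R u z) ∧ (∀ i, u ≠ d i) → ∃ w : ZMod 3 → V, IsW R d u w := fun u hu =>
    exists_w h u hu.1 hu.2
  have : Nonempty V := ⟨d 0⟩
  choose! w hw using hw0
  set L : Finset V := univ.filter (fun u => (∃ z, R u z) ∧ ∀ i, u ≠ d i) with hL
  have hwL : ∀ u ∈ L, IsW R d u (w u) := fun u hu => hw u (mem_filter.1 hu).2
  -- a neighbour `v = w u j` of `u` which is not `d j`
  have key : ∀ u ∈ L, ∀ j, ¬ R u (d j) → w u j ∈ L ∧ R (w u j) (d j) ∧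
      (∀ l, R (w u j) (d l) → l = j) ∧ ∀ i, R u (d i) → w (w u j) i = u := by
    intro u hu j hj
    obtain ⟨h1, h2, h3⟩ := hwL u hu
    have h4 : Near R (d j) (w u j) := (h2 j j).2 rfl
    have h5 : R (w u j) (d j) := by
      rcases h4 with h4 | h4
      · exact absurd (h4 ▸ h1 j) hj
      · exact h4
    have h6 : w u j ∈ L := by
      rw [hL, mem_filter]
      refine ⟨mem_univ _, ⟨u, h.good.symm (h1 j)⟩, fun i hi => ?_⟩
      have h7 := (h2 j i).1 (Or.inl hi)
      subst h7
      exact hj (hi ▸ h1 j)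
    refine ⟨h6, h5, fun l hl => ((h2 j l).1 (Or.inr hl)).symm, fun i hi => ?_⟩
    obtain ⟨g1, g2, g3⟩ := hwL _ h6
    obtain ⟨l, hl⟩ := g3 u (h.good.symm (h1 j))
    have g4 := (g2 l i).1 (Or.inr (by rw [← hl]; exact hi))
    rw [← g4, ← hl]
  have hub : ∀ u ∈ L, ∃ i, R u (d i) := by
    intro u hu
    have h1 := (mem_filter.1 hu).2
    obtain ⟨i, hi⟩ := h.dom u h1.1
    rcases hi with hi | hi
    · exact absurd hi (h1.2 i)
    · exact ⟨i, hi⟩
  -- two hubs imply three hubs
  have two : ∀ u ∈ L, ∀ i j, i ≠ j → R u (d i) → R u (d j) → ∀ l, R u (d l) := by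
    intro u hu i j hij hi hj l
    by_contra hl
    obtain ⟨k1, -, -, k4⟩ := key u hu l hl
    obtain ⟨g1, g2, g3⟩ := hwL _ k1
    have e1 := k4 i hi
    have e2 := k4 j hj
    have e3 := (g2 i j).1 (by rw [e1]; exact Or.inr hj)
    exact hij e3
  set A : ZMod 3 → Finset V := fun i => L.filter (fun u => R u (d i) ∧ ∀ j, R u (d j) → j = i)
    with hA
  set T : Finset V := L.filter (fun u => ∀ j, R u (d j)) with hT
  have hLAT : ∀ u ∈ L, (∃ i, u ∈ A i) ∨ u ∈ T := by
    intro u hu
    obtain ⟨i, hi⟩ := hub u hu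
    by_cases h1 : ∀ j, R u (d j) → j = i
    · exact Or.inl ⟨i, mem_filter.2 ⟨hu, hi, h1⟩⟩
    · push Not at h1
      obtain ⟨j, hj, hji⟩ := h1
      exact Or.inr (mem_filter.2 ⟨hu, two u hu i j (Ne.symm hji) hi hj⟩)
  have hAL : ∀ i u, u ∈ A i → u ∈ L := fun i u hu => (mem_filter.1 hu).1
  have hwA : ∀ i j u, u ∈ A i → i ≠ j → w u j ∈ A j := by
    intro i j u hu hij
    obtain ⟨h1, h2, h3⟩ := mem_filter.1 hu
    obtain ⟨k1, k2, k3, -⟩ := key u h1 j (fun h4 => hij (h3 j h4).symm)
    exact mem_filter.2 ⟨k1, k2, k3⟩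
  have hww : ∀ i j u, u ∈ A i → i ≠ j → w (w u j) i = u := by
    intro i j u hu hij
    obtain ⟨h1, h2, h3⟩ := mem_filter.1 hu
    obtain ⟨k1, k2, k3, k4⟩ := key u h1 j (fun h4 => hij (h3 j h4).symm)
    exact k4 i h2
  have hwi : ∀ i u, u ∈ L → R u (d i) → w u i = d i := by
    intro i u hu hi
    obtain ⟨g1, g2, g3⟩ := hwL u hu
    obtain ⟨l, hl⟩ := g3 _ hi
    have h5 : l = i := (g2 l i).1 (by rw [← hl]; exact Or.inl rfl)
    subst h5
    exact hl.symm
  -- the number of vertices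
  have hnon : ∀ y, (∃ z, R y z) → (∃ i, y = d i) ∨ y ∈ L := by
    intro y hy
    by_cases h1 : ∃ i, y = d i
    · exact Or.inl h1
    · push Not at h1
      exact Or.inr (mem_filter.2 ⟨mem_univ _, hy, h1⟩)
  have hLne : L.Nonempty := by
    by_contra hL0
    rw [not_nonempty_iff_eq_empty] at hL0
    have h1 : univ.filter (fun y => (univ.filter (R y)).card % 2 = 1) ⊆ univ.image d := by
      intro y hy
      have h2 := (mem_filter.1 hy).2
      have h3 : 0 < (univ.filter (R y)).card := by omega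
      obtain ⟨z, hz⟩ := card_pos.1 h3
      rcases hnon y ⟨z, (mem_filter.1 hz).2⟩ with ⟨i, hi⟩ | h4
      · exact mem_image.2 ⟨i, mem_univ _, hi.symm⟩
      · rw [hL0] at h4
        simp at h4
    have h2 := h.odd.trans ((card_le_card h1).trans card_image_le)
    have h3 : (univ : Finset (ZMod 3)).card = 3 := rfl
    omega
  have hdinj : Function.Injective d := by
    obtain ⟨u, hu⟩ := hLne
    obtain ⟨g1, g2, g3⟩ := hwL u hu
    intro i j hij
    have h1 := (g2 i i).2 rfl
    rw [hij] at h1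
    exact (g2 i j).1 h1
  have hTc : T.card ≤ 1 := by
    rw [card_le_one]
    intro x hx y hy
    obtain ⟨h1, h2⟩ := mem_filter.1 hx
    obtain ⟨h3, h4⟩ := mem_filter.1 hy
    by_contra hne
    refine h.good.four hne (hdinj.ne (show (0 : ZMod 3) ≠ 1 by decide)) (h2 0)
      (h.good.symm (h4 0)) (h4 1) (h.good.symm (h2 1))
  have hAcard : ∀ i j, (A i).card ≤ (A j).card := by
    intro i j
    by_cases hij : i = j
    · rw [hij]
    · refine card_le_card_of_injOn (fun u => w u j) (fun u hu => hwA i j u hu hij) ?_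
      intro u hu u' hu' he
      have h1 := hww i j u hu hij
      have h2 := hww i j u' hu' hij
      have he' : w u j = w u' j := he
      rw [← h1, ← h2, he']
  have hcard5 : ∀ i, 5 ≤ (A i).card := by
    have h1 : univ.filter (fun y => (univ.filter (R y)).card % 2 = 1) ⊆
        (((A 0 ∪ A 1) ∪ A 2) ∪ T) ∪ univ.image d := by
      intro y hy
      have h2 := (mem_filter.1 hy).2
      have h3 : 0 < (univ.filter (R y)).card := by omega
      obtain ⟨z, hz⟩ := card_pos.1 h3
      rw [mem_union]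
      rcases hnon y ⟨z, (mem_filter.1 hz).2⟩ with ⟨i, hi⟩ | h4
      · exact Or.inr (mem_image.2 ⟨i, mem_univ _, hi.symm⟩)
      · left
        rw [mem_union, mem_union, mem_union]
        rcases hLAT y h4 with ⟨i, hi⟩ | h5
        · left
          have h6 : ∀ i : ZMod 3, i = 0 ∨ i = 1 ∨ i = 2 := by decide
          rcases h6 i with rfl | rfl | rfl
          · exact Or.inl (Or.inl hi)
          · exact Or.inl (Or.inr hi)
          · exact Or.inr hi
        · exact Or.inr h5
    have h2 := h.odd.trans (card_le_card h1)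
    have h3 := card_union_le (((A 0 ∪ A 1) ∪ A 2) ∪ T) (univ.image d)
    have h4 := card_union_le ((A 0 ∪ A 1) ∪ A 2) T
    have h5 := card_union_le (A 0 ∪ A 1) (A 2)
    have h6 := card_union_le (A 0) (A 1)
    have h7 : (univ.image d).card ≤ 3 := card_image_le
    have h8 := hAcard 0 1
    have h9 := hAcard 1 0
    have h10 := hAcard 2 0
    have h11 := hAcard 0 2
    intro i
    have h12 := hAcard 0 i
    omega
  have hne : ∀ i, (A i).Nonempty := fun i => card_pos.1 (by have := hcard5 i; omega)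
  have hdd : ∀ i j, ¬ R (d i) (d j) := by
    intro i j hij
    by_cases hne' : i = j
    · subst hne'; exact h.good.irr _ hij
    · obtain ⟨u, hu⟩ := hne i
      have h1 := hwA i j u hu hne'
      have h2 := (mem_filter.1 hu).2.1
      have h3 := (mem_filter.1 h1).2.1
      have h4 := (mem_filter.1 (hAL i u hu)).2.2
      have h5 := (mem_filter.1 (hAL j _ h1)).2.2
      exact h.good.four (h4 j) (h5 i) ((hwL u (hAL i u hu)).1 j) h3 (h.good.symm hij)
        (h.good.symm h2)
  refine ⟨w, A, T, ⟨fun h1 => h.good.symm h1, h.good.irr, hdinj, ?_, ?_, ?_, ?_, hwA, hww,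
    ?_, ?_, ?_, hTc, ?_, hcard5⟩⟩
  · intro i j hi
    exact (mem_filter.1 (hAL j _ hi)).2.2 i rfl
  · intro i hi
    exact (mem_filter.1 (mem_filter.1 hi).1).2.2 i rfl
  · intro i
    rw [disjoint_left]
    intro u hu hu'
    have h1 := (mem_filter.1 hu).2.2
    have h2 := (mem_filter.1 hu').2
    have h3 := h1 (i + 1) (h2 _)
    have h4 : ∀ i : ZMod 3, i + 1 ≠ i := by decide
    exact h4 i h3
  · intro i j hij
    rw [disjoint_left]
    intro u hu hu'
    exact hij ((mem_filter.1 hu').2.2 i (mem_filter.1 hu).2.1)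
  · intro i u hu
    have hu1 := hAL i u hu
    obtain ⟨g1, g2, g3⟩ := hwL u hu1
    have hwi' := hwi i u hu1 (mem_filter.1 hu).2.1
    ext z
    rw [mem_filter, mem_insert, mem_insert, mem_singleton]
    constructor
    · rintro ⟨-, hz⟩
      obtain ⟨l, hl⟩ := g3 z hz
      have h6 : ∀ i l : ZMod 3, l = i ∨ l = i + 1 ∨ l = i + 2 := by decide
      rcases h6 i l with h7 | h7 | h7
      · left; rw [hl, h7, hwi']
      · right; left; rw [hl, h7]
      · right; right; rw [hl, h7]
    · rintro (h7 | h7 | h7)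
      · rw [h7, ← hwi']; exact ⟨mem_univ _, g1 _⟩
      · rw [h7]; exact ⟨mem_univ _, g1 _⟩
      · rw [h7]; exact ⟨mem_univ _, g1 _⟩
  · intro i
    ext z
    rw [mem_filter, mem_union]
    constructor
    · rintro ⟨-, hz⟩
      rcases hnon z ⟨d i, h.good.symm hz⟩ with ⟨j, hj⟩ | h1
      · exact absurd (hj ▸ hz) (hdd i j)
      · rcases hLAT z h1 with ⟨j, hj⟩ | h2
        · left
          have := (mem_filter.1 hj).2.2 i (h.good.symm hz)
          rw [this]; exact hj
        · exact Or.inr h2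
    · rintro (h1 | h1)
      · exact ⟨mem_univ _, h.good.symm (mem_filter.1 h1).2.1⟩
      · exact ⟨mem_univ _, h.good.symm ((mem_filter.1 h1).2 i)⟩
  · intro u hu
    obtain ⟨h1, h2⟩ := mem_filter.1 hu
    obtain ⟨g1, g2, g3⟩ := hwL u h1
    ext z
    rw [mem_filter, mem_image]
    constructor
    · rintro ⟨-, hz⟩
      obtain ⟨l, hl⟩ := g3 z hz
      exact ⟨l, mem_univ _, by rw [hl, hwi l u h1 (h2 l)]⟩
    · rintro ⟨l, -, hl⟩
      rw [← hl]
      exact ⟨mem_univ _, h2 l⟩
  · intro y hy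
    rcases hnon y hy with h1 | h1
    · exact Or.inl h1
    · exact Or.inr (hLAT y h1)

end

end Pool.Agent.W5h7.Dom
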